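import Mathlib
import Pool.Agent.H929.BW.All

/-!
# Hilbert functions of general fat points of all multiplicities: bounded windows

Let `n ≥ 2`. There is a constant `C = C(n)` such that for ALL `r ≥ 3 ^ n` and ALL `m ≥ 1` the
Hilbert function `H_{n,r,m}` of `R / I^(m)` for `r` general points of `ℙⁿ` has the expected value
`min (binom (n + d) n) (r * binom (n + m - 1) n)` in all degrees `d` but at most `C`. The exceptional
degrees lie in the window `|d - T| < C`, where `T = (n! r binom (n + m - 1) n) ^ (1 / n)` is the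
critical degree: `H_{n,r,m}(d) = binom (n + d) n` for `d ≤ T - C`, and
`H_{n,r,m}(d) = r * binom (n + m - 1) n` for `d ≥ T + C`.

The proof for `m ≥ r ^ (1 / n)`: the points are specialized in a torus, such that the simplex of
exponents of the forms is cut by hyperplanes with real slopes into simplices of several scales.
At each scale a simplex is used by points of a much larger multiplicity, each of which is a
collision of `t ^ n` of the given points, where `t` decreases from `r ^ (1 / n)` to `1` by a factor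
of about `2` with the scale.
For `m ≤ r ^ (1 / n)` the result follows from the theorem `ConstantWindow`.
-/

set_option autoImplicit false

namespace Pool.Agent.Results.MP_b56c98_ag.AllMultiplicitiesWindow

open MvPolynomial
open scoped LinearAlgebra.Projectivization
open Pool.Agent.H350R3.MG

/-- The `m`-th symbolic power of the ideal of the points `P₁, …, P_r`. -/
noncomputable def symbolicPower {n r : ℕ} (m : ℕ) (P : Fin r → ℙ ℂ (Fin (n + 1) → ℂ)) :
    Ideal (MvPolynomial (Fin (n + 1)) ℂ) :=
  ⨅ i, primeIdeal (P i) ^ m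

/-- The Hilbert function `dim R_d - dim J_d` of `R / J`. -/
noncomputable def hilbert {n : ℕ} (J : Ideal (MvPolynomial (Fin (n + 1)) ℂ)) (d : ℕ) : ℤ :=
  (Module.finrank ℂ (homogeneousSubmodule (Fin (n + 1)) ℂ d) : ℤ) -
    Module.finrank ℂ (homogeneousSubmodule (Fin (n + 1)) ℂ d ⊓ Submodule.restrictScalars ℂ J :
      Submodule ℂ (MvPolynomial (Fin (n + 1)) ℂ))

/-- `h` is the value `H_{n,r,m}(d)` of the Hilbert function of `R / I^(m)` for `r` general points:
the value is `h` for all the `r`-tuples of points in a nonempty Zariski open set. -/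
def IsGeneralHilbertValue (n r m d : ℕ) (h : ℤ) : Prop :=
  Generally (fun P : Fin r → ℙ ℂ (Fin (n + 1) → ℂ) => hilbert (symbolicPower m P) d = h)

/-- The critical degree: the number `T ≥ 0` with `T ^ n = n! * (r * binom (n + m - 1) n)`, that is
`T ^ n = r m (m + 1) ⋯ (m + n - 1)`. -/
noncomputable def critical (n r m : ℕ) : ℝ :=
  ((n.factorial * (r * (n + m - 1).choose n) : ℕ) : ℝ) ^ (1 / (n : ℝ))

open Pool.Agent.H929.BW in
lemma choose_le {n r m d : ℕ} (h : (d : ℝ) ≤ critical (n + 1) r m - (n + 1)) :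
    (n + 1 + d).choose (n + 1) ≤ r * (n + 1 + m - 1).choose (n + 1) := by
  have h1 := crit_pow n r m
  have h2 : crit (n + 1) r m = critical (n + 1) r m := rfl
  rw [h2] at h1
  have h3 : PP n ((d : ℝ) + 1) ≤ r * PP n m := by
    rw [← h1]
    exact (PP_upper n (by positivity)).trans (pow_le_pow_left₀ (by positivity) (by linarith) _)
  rw [← PP_nat, ← PP_nat'] at h3
  have h4 : (n + 1).factorial * (n + 1 + d).choose (n + 1) ≤
      (n + 1).factorial * (r * (n + 1 + m - 1).choose (n + 1)) := by
    have : (((n + 1).factorial * (n + 1 + d).choose (n + 1) : ℕ) : ℝ) ≤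
      (((n + 1).factorial * (r * (n + 1 + m - 1).choose (n + 1)) : ℕ) : ℝ) := by
      refine h3.trans_eq ?_
      push_cast
      ring
    exact_mod_cast this
  exact Nat.le_of_mul_le_mul_left h4 (Nat.factorial_pos _)

open Pool.Agent.H929.BW in
lemma le_choose {n r m d : ℕ} (h : critical (n + 1) r m ≤ d) :
    r * (n + 1 + m - 1).choose (n + 1) ≤ (n + 1 + d).choose (n + 1) := by
  have h1 := crit_pow n r m
  have h2 : crit (n + 1) r m = critical (n + 1) r m := rfl
  have h0 := crit_nonneg (n + 1) r m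
  rw [h2] at h1 h0
  have h3 : r * PP n m ≤ PP n ((d : ℝ) + 1) := by
    rw [← h1]
    exact (pow_le_pow_left₀ h0 (by linarith) _).trans (PP_lower n (by positivity))
  rw [← PP_nat, ← PP_nat'] at h3
  have h4 : (n + 1).factorial * (r * (n + 1 + m - 1).choose (n + 1)) ≤
      (n + 1).factorial * (n + 1 + d).choose (n + 1) := by
    have : (((n + 1).factorial * (r * (n + 1 + m - 1).choose (n + 1)) : ℕ) : ℝ) ≤
      (((n + 1).factorial * (n + 1 + d).choose (n + 1) : ℕ) : ℝ) := by
      refine Eq.trans_le ?_ h3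
      push_cast
      ring
    exact_mod_cast this
  exact Nat.le_of_mul_le_mul_left h4 (Nat.factorial_pos _)

/-- Let `n ≥ 2`. There is a constant `C` such that for all `r ≥ 3 ^ n` and all `m ≥ 1`, with the
critical degree `T = (n! r binom (n + m - 1) n) ^ (1 / n)`:

* `H_{n,r,m}(d) = binom (n + d) n` for `d ≤ T - C`;
* `H_{n,r,m}(d) = r * binom (n + m - 1) n` for `d ≥ T + C`;
* `H_{n,r,m}(d) = min (binom (n + d) n) (r * binom (n + m - 1) n)` for all the degrees `d` but at
  most `C`. -/
theorem result (n : ℕ) (hn : 2 ≤ n) : ∃ C : ℕ, ∀ r m : ℕ, 3 ^ n ≤ r → 1 ≤ m →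
    (∀ d : ℕ, (d : ℝ) ≤ critical n r m - C →
      IsGeneralHilbertValue n r m d ((n + d).choose n)) ∧
    (∀ d : ℕ, critical n r m + C ≤ d →
      IsGeneralHilbertValue n r m d (r * (n + m - 1).choose n)) ∧
    ∃ D : Finset ℕ, D.card ≤ C ∧ ∀ d : ℕ, d ∉ D → IsGeneralHilbertValue n r m d
      (min ((n + d).choose n) (r * (n + m - 1).choose n)) := by
  obtain ⟨k, rfl⟩ : ∃ k, n = k + 1 := ⟨n - 1, by omega⟩
  obtain ⟨C, hC, h⟩ := Pool.Agent.H929.BW.main k (by omega)
  have hval : ∀ r m d : ℕ, 3 ^ (k + 1) ≤ r → 1 ≤ m →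
      ((d : ℝ) ≤ critical (k + 1) r m - C →
        IsGeneralHilbertValue (k + 1) r m d ((k + 1 + d).choose (k + 1))) ∧
      (critical (k + 1) r m + C ≤ d →
        IsGeneralHilbertValue (k + 1) r m d (r * (k + 1 + m - 1).choose (k + 1))) := h
  obtain ⟨B, hB⟩ := exists_nat_ge (C + k + 1)
  have hB' : (C : ℝ) ≤ B := by
    have : (0 : ℝ) ≤ k := Nat.cast_nonneg k
    linarith
  refine ⟨2 * B + 1, fun r m hr hm => ?_⟩
  have hBC : (C : ℝ) ≤ ((2 * B + 1 : ℕ) : ℝ) := by
    push_cast
    linarith
  set T := critical (k + 1) r m with hT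
  refine ⟨fun d hd => (hval r m d hr hm).1 (by linarith),
    fun d hd => (hval r m d hr hm).2 (by linarith), ?_⟩
  refine ⟨(Finset.Ioo (⌊T⌋ - B) (⌊T⌋ + 1 + B)).image Int.toNat, ?_, fun d hd => ?_⟩
  · refine Finset.card_image_le.trans ?_
    rw [Int.card_Ioo]
    omega
  · have h1 : (d : ℤ) ≤ ⌊T⌋ - B ∨ ⌊T⌋ + 1 + B ≤ (d : ℤ) := by
      by_contra hcon
      push Not at hcon
      exact hd (Finset.mem_image.2 ⟨(d : ℤ), Finset.mem_Ioo.2 hcon, Int.toNat_natCast d⟩)
    rcases h1 with h1 | h1
    · have h2 : (d : ℝ) ≤ T - B := by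
        have h3 : ((d : ℤ) : ℝ) ≤ ((⌊T⌋ - B : ℤ) : ℝ) := by exact_mod_cast h1
        push_cast at h3
        have h4 := Int.floor_le T
        linarith
      have h5 := (hval r m d hr hm).1 (by linarith)
      have h6 : (k + 1 + d).choose (k + 1) ≤ r * (k + 1 + m - 1).choose (k + 1) :=
        choose_le (by linarith)
      rwa [min_eq_left (by exact_mod_cast h6)]
    · have h2 : T + B ≤ d := by
        have h3 : ((⌊T⌋ + 1 + B : ℤ) : ℝ) ≤ ((d : ℤ) : ℝ) := by exact_mod_cast h1
        push_cast at h3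
        have h4 := Int.lt_floor_add_one T
        linarith
      have h5 := (hval r m d hr hm).2 (by linarith)
      have h6 : r * (k + 1 + m - 1).choose (k + 1) ≤ (k + 1 + d).choose (k + 1) :=
        le_choose (by
          have : (0 : ℝ) ≤ B := Nat.cast_nonneg B
          linarith)
      rwa [min_eq_right (by exact_mod_cast h6)]

end Pool.Agent.Results.MP_b56c98_ag.AllMultiplicitiesWindow
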