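import Pool.Agent.H937.OS.Gen
import Pool.Graph.R_seed8.TH176.RK.Fro2

/-!
# Fat points: one explicit sequence of points of projective space, in every dimension

Let `x_{i,j}` (`i ≥ 0`, `j ≥ 0`) be complex numbers which are algebraically independent over the
rational numbers, for instance `x_{i,j} = exp (2 ^ (1 / 2 ^ (⟨i, j⟩ + 1)))` (Lindemann and Weierstrass),
where `⟨i, j⟩` is the number of the pair `(i, j)`. For every `n` consider the sequence of the points
`P_i = (x_{i,0} : … : x_{i,n})` of `ℙⁿ`.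

* For all `n`, ALL finite subsets of the sequence, ALL multiplicities and ALL degrees the value of the
  Hilbert function of the ideal of the fat points is the one for general points; in particular it is
  `H_{n,r,m}(d)` for any `r` points of the sequence with the multiplicity `m`. So Q1 (for all
  `n`, `r`, `m`, `d`) is a question about one explicit sequence of points.
* Let `n ≥ 2`, and take any `r ≥ 3 ^ n` of the points with any multiplicities `w i`, and let
  `ρ = r ^ (1 / n)`. If `ρ ^ (n - 1) d < ∑ w i`, then there is no hypersurface of degree `d` with these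
  multiplicities (the inequality of Nagata), and if `w i ≤ W` and `ρ (W + n - 1) + n - 2 < d`, then the
  fat points impose independent conditions on the forms of degree `d`. In particular `H_{n,r,m}(d)` is
  attained and has the expected value for `d < ρ m` and for `ρ (m + n - 1) + n - 2 < d`.

The proof: by Macaulay duality the Hilbert function is the rank of a matrix the entries of which are
polynomials in the coordinates of the points with integral coefficients; a nonzero minor of it does not
vanish at algebraically independent numbers. The bounds of the second part come from points over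
fields of Hahn series (library, `TH176.RK`), which are compared with the points over the complex
numbers by the same matrix.
-/

set_option autoImplicit false

namespace Pool.Agent.Results.MP_b56c98_ag.OneSequenceEveryDimension

open MvPolynomial
open scoped LinearAlgebra.Projectivization
open Pool.Agent.H350R3.MG

/-- The intersection of the powers `𝔭_i ^ (w i)` of the homogeneous prime ideals of the points
`P₁, …, P_r`. -/
noncomputable def fatIdeal {n r : ℕ} (w : Fin r → ℕ) (P : Fin r → ℙ ℂ (Fin (n + 1) → ℂ)) :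
    Ideal (MvPolynomial (Fin (n + 1)) ℂ) :=
  ⨅ i, primeIdeal (P i) ^ w i

/-- The Hilbert function `dim R_d - dim J_d` of `R / J`. -/
noncomputable def hilbert {n : ℕ} (J : Ideal (MvPolynomial (Fin (n + 1)) ℂ)) (d : ℕ) : ℤ :=
  (Module.finrank ℂ (homogeneousSubmodule (Fin (n + 1)) ℂ d) : ℤ) -
    Module.finrank ℂ (homogeneousSubmodule (Fin (n + 1)) ℂ d ⊓ Submodule.restrictScalars ℂ J :
      Submodule ℂ (MvPolynomial (Fin (n + 1)) ℂ))

/-- `h` is the value in degree `d` of the Hilbert function of the ideal of `r` general points with the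
multiplicities `w i`: it is the value for all the `r`-tuples of points in a nonempty Zariski open
set. -/
def IsGeneralValue (n : ℕ) {r : ℕ} (w : Fin r → ℕ) (d : ℕ) (h : ℤ) : Prop :=
  Generally (fun P : Fin r → ℙ ℂ (Fin (n + 1) → ℂ) => hilbert (fatIdeal w P) d = h)

/-- The coordinates of the vectors are algebraically independent over the rational numbers. -/
def Independent {n : ℕ} (v : ℕ → Fin (n + 1) → ℂ) : Prop :=
  AlgebraicIndependent ℚ (fun ij : ℕ × Fin (n + 1) => v ij.1 ij.2)

/-- The numbers `x_{i,j} = exp (2 ^ (1 / 2 ^ (⟨i, j⟩ + 1)))`, `j = 0, …, n`. -/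
noncomputable def coords (n i : ℕ) (j : Fin (n + 1)) : ℂ :=
  ((Real.exp ((2 : ℝ) ^ ((1 : ℝ) / 2 ^ (Nat.pair i (j : ℕ) + 1))) : ℝ) : ℂ)

theorem coords_ne (n i : ℕ) : coords n i ≠ 0 := by
  intro h
  have h1 := congrFun h 0
  unfold coords at h1
  rw [Pi.zero_apply, Complex.ofReal_eq_zero] at h1
  exact (Real.exp_pos _).ne' h1

/-- The point `P_i = (x_{i,0} : … : x_{i,n})`. -/
noncomputable def point (n i : ℕ) : ℙ ℂ (Fin (n + 1) → ℂ) :=
  Projectivization.mk ℂ (coords n i) (coords_ne n i)

theorem coords_independent (n : ℕ) : Independent (coords n) := by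
  refine (Pool.Agent.Y76.NQ.algInd_germ).comp
    (fun ij : ℕ × Fin (n + 1) => Nat.pair ij.1 (ij.2 : ℕ)) ?_
  rintro ⟨i, j⟩ ⟨i', j'⟩ h
  have h1 : Nat.pair i (j : ℕ) = Nat.pair i' (j' : ℕ) := h
  rw [Nat.pair_eq_pair] at h1
  rw [Prod.mk.injEq]
  exact ⟨h1.1, Fin.ext h1.2⟩

theorem pair_inj {n r : ℕ} {e : Fin r → ℕ} (he : Function.Injective e) :
    Function.Injective (fun ij : Fin r × Fin (n + 1) => (e ij.1, ij.2)) := by
  rintro ⟨i, j⟩ ⟨i', j'⟩ h
  rw [Prod.mk.injEq] at h
  rw [Prod.mk.injEq]
  exact ⟨he h.1, h.2⟩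

theorem ne_of_independent {n r : ℕ} {v : ℕ → Fin (n + 1) → ℂ} (hv : Independent v)
    {e : Fin r → ℕ} (he : Function.Injective e) {Φ : MvPolynomial (Fin r × Fin (n + 1)) ℤ}
    (h0 : Φ ≠ 0) :
    eval₂Hom (Int.castRingHom ℂ) (fun x : Fin r × Fin (n + 1) => v (e x.1) x.2) Φ ≠ 0 :=
  Pool.Agent.H937.OS.indep_ne (AlgebraicIndependent.comp hv
    (fun ij : Fin r × Fin (n + 1) => (e ij.1, ij.2)) (pair_inj he)) h0

theorem general {n r : ℕ} (w : Fin r → ℕ) (d : ℕ) {v : ℕ → Fin (n + 1) → ℂ} (hv0 : ∀ i, v i ≠ 0)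
    (hv : Independent v) {e : Fin r → ℕ} (he : Function.Injective e) :
    IsGeneralValue n w d
      (hilbert (fatIdeal w (fun i => Projectivization.mk ℂ (v (e i)) (hv0 (e i)))) d) := by
  obtain ⟨N, Φ, h0, h1, -⟩ := Pool.Agent.H937.OS.value n r d w
  have h2 : hilbert (fatIdeal w (fun i => Projectivization.mk ℂ (v (e i)) (hv0 (e i)))) d = N :=
    h1 (fun i => v (e i)) (fun i => hv0 (e i)) (ne_of_independent hv he h0)
  rw [h2]
  refine generally_of_poly (MvPolynomial.map (Int.castRingHom ℂ) Φ) (fun h3 => h0 ?_)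
    fun p hp hΦ => ?_
  · exact MvPolynomial.map_injective _ (RingHom.injective_int (Int.castRingHom ℂ))
      (by rw [h3, map_zero])
  · rw [MvPolynomial.eval_map] at hΦ
    exact h1 p hp hΦ

/-- **One sequence of points in each dimension for all fat points.** -/
theorem result :
    -- (1) sequences with algebraically independent coordinates are general
    (∀ (n : ℕ) (v : ℕ → Fin (n + 1) → ℂ) (hv0 : ∀ i, v i ≠ 0), Independent v →
      ∀ (r d : ℕ) (w e : Fin r → ℕ), Function.Injective e →
        IsGeneralValue n w d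
          (hilbert (fatIdeal w (fun i => Projectivization.mk ℂ (v (e i)) (hv0 (e i)))) d)) ∧
    -- (2) the expected values for at least `3 ^ n` points
    (∀ n : ℕ, 2 ≤ n → ∀ (v : ℕ → Fin (n + 1) → ℂ) (hv0 : ∀ i, v i ≠ 0), Independent v →
      ∀ r : ℕ, 3 ^ n ≤ r → ∀ w e : Fin r → ℕ, Function.Injective e → ∀ d : ℕ,
        ((r : ℝ) ^ (((n : ℝ) - 1) / n) * d < ∑ i, (w i : ℝ) →
          hilbert (fatIdeal w (fun i => Projectivization.mk ℂ (v (e i)) (hv0 (e i)))) d =
            (d + n).choose n ∧
          homogeneousSubmodule (Fin (n + 1)) ℂ d ⊓ Submodule.restrictScalars ℂ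
            (fatIdeal w (fun i => Projectivization.mk ℂ (v (e i)) (hv0 (e i)))) = ⊥) ∧
        ∀ W : ℕ, (∀ i, w i ≤ W) → (r : ℝ) ^ ((1 : ℝ) / n) * (W + n - 1) + (n - 2) < d →
          hilbert (fatIdeal w (fun i => Projectivization.mk ℂ (v (e i)) (hv0 (e i)))) d =
            ∑ i, (w i + n - 1).choose n) ∧
    -- (3) the explicit sequences
    (∀ n : ℕ, Independent (coords n)) ∧
    ∀ (n r d : ℕ) (w e : Fin r → ℕ), Function.Injective e →
      IsGeneralValue n w d (hilbert (fatIdeal w (fun i => point n (e i))) d) := by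
  refine ⟨fun n v hv0 hv r d w e he => general w d hv0 hv he, fun n hn v hv0 hv r hr w e he d => ?_,
    coords_independent, fun n r d w e he => general w d (coords_ne n) (coords_independent n) he⟩
  obtain ⟨k, rfl⟩ : ∃ k, n = k + 2 := ⟨n - 2, by omega⟩
  have hr0 : 0 < r := lt_of_lt_of_le (by positivity) hr
  obtain ⟨h0, hu, huE⟩ := Pool.Agent.H932R5.pos_root (E := k + 1) hr0
  have c1 : (((k + 1 : ℕ) : ℝ) + 1) = ((k + 2 : ℕ) : ℝ) := by push_cast; ring
  have c2 : ((k + 1 : ℕ) : ℝ) = ((k + 2 : ℕ) : ℝ) - 1 := by push_cast; ring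
  rw [c1] at h0 hu huE
  rw [c2] at huE
  obtain ⟨u, hu1⟩ : ∃ u : ℝ, (r : ℝ) ^ ((1 : ℝ) / ((k + 2 : ℕ) : ℝ)) = u := ⟨_, rfl⟩
  rw [hu1] at h0 hu huE
  have hu3 : 3 ≤ u := by
    by_contra hcon
    push Not at hcon
    have h1 : u ^ (k + 1 + 1) < 3 ^ (k + 1 + 1) := pow_lt_pow_left₀ hcon h0.le (by omega)
    rw [hu] at h1
    have h2 : r < 3 ^ (k + 2) := by exact_mod_cast h1
    exact absurd hr (not_le.2 h2)
  rw [hu1, huE]
  obtain ⟨N, Φ, hΦ, h1, h2, h3⟩ := Pool.Agent.H937.OS.bounds k r d w u hu3 hu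
  have h4 : hilbert (fatIdeal w (fun i => Projectivization.mk ℂ (v (e i)) (hv0 (e i)))) d = N :=
    h1 (fun i => v (e i)) (fun i => hv0 (e i)) (ne_of_independent hv he hΦ)
  refine ⟨fun h => ?_, fun W hW h => ?_⟩
  · have h5 := h2 h
    refine ⟨by rw [h4, h5], ?_⟩
    rw [h5] at h4
    unfold hilbert at h4
    have h6 : Module.finrank ℂ (homogeneousSubmodule (Fin (k + 2 + 1)) ℂ d) =
        (d + (k + 2)).choose (k + 2) := by
      rw [← Pool.Agent.TH176.FB.card_Mon_choose (k + 2) d,
        ← Pool.Agent.TH206.Fro.dim_thm (k + 2 + 1) d ℂ]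
    rw [h6] at h4
    have h7 : Module.finrank ℂ (homogeneousSubmodule (Fin (k + 2 + 1)) ℂ d ⊓
        Submodule.restrictScalars ℂ
          (fatIdeal w (fun i => Projectivization.mk ℂ (v (e i)) (hv0 (e i)))) :
            Submodule ℂ (MvPolynomial (Fin (k + 2 + 1)) ℂ)) = 0 := by
      have : (Module.finrank ℂ (homogeneousSubmodule (Fin (k + 2 + 1)) ℂ d ⊓
        Submodule.restrictScalars ℂ
          (fatIdeal w (fun i => Projectivization.mk ℂ (v (e i)) (hv0 (e i)))) :
            Submodule ℂ (MvPolynomial (Fin (k + 2 + 1)) ℂ)) : ℤ) = 0 := by linarith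
      exact_mod_cast this
    have hfd : FiniteDimensional ℂ (homogeneousSubmodule (Fin (k + 2 + 1)) ℂ d ⊓
        Submodule.restrictScalars ℂ
          (fatIdeal w (fun i => Projectivization.mk ℂ (v (e i)) (hv0 (e i)))) :
            Submodule ℂ (MvPolynomial (Fin (k + 2 + 1)) ℂ)) :=
      Submodule.finiteDimensional_of_le inf_le_left
    exact Submodule.finrank_eq_zero.1 h7
  · have d1 : ((W : ℝ) + ((k + 2 : ℕ) : ℝ) - 1) = W + k + 1 := by push_cast; ring
    have d2 : ((k + 2 : ℕ) : ℝ) - 2 = k := by push_cast; ring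
    rw [d1, d2] at h
    rw [h4, h3 W hW h]
    push_cast
    rfl

end Pool.Agent.Results.MP_b56c98_ag.OneSequenceEveryDimension
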